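import Mathlib

/-!
MP_0863b8_nt: inhomogeneous Duffin-Schaeffer.  Definitions and the statements of the items
of the blueprint (as Props), so that the items can be proved independently.
-/

namespace Pool.Agent.MP_0863b8

open MeasureTheory Filter

/-- distance to the nearest integer -/
noncomputable def nd (x : ℝ) : ℝ := |x - round x|

/-- sum of the reciprocals of the prime divisors of `n` -/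
noncomputable def rp (n : ℕ) : ℝ := ∑ p ∈ n.primeFactors, (1 : ℝ) / p

/-! ### The tree inequality -/

open Classical in
/-- number of pairs of `V x W` whose reduced pair lies in `Q` and all primes of whose gcd
lie in `P` -/
noncomputable def cnt (P : Set ℕ) (V W : Finset ℕ) (Q : Finset (ℕ × ℕ)) : ℕ :=
  ((V ×ˢ W).filter (fun t => (t.1 / t.1.gcd t.2, t.2 / t.1.gcd t.2) ∈ Q ∧
    ∀ p ∈ (t.1.gcd t.2).primeFactors, p ∈ P)).card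

/-- elements of `V` with valuation `i` at `l`, divided by `l ^ i` -/
noncomputable def part (l i : ℕ) (V : Finset ℕ) : Finset ℕ :=
  (V.filter (fun v => v.factorization l = i)).image (fun v => v / l ^ i)

/-- the pairs of `Q` with valuations `i - j` and `j - i` (truncated), divided -/
noncomputable def qpart (l i j : ℕ) (Q : Finset (ℕ × ℕ)) : Finset (ℕ × ℕ) :=
  (Q.filter (fun t => t.1.factorization l = i - j ∧ t.2.factorization l = j - i)).image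
    (fun t => (t.1 / l ^ (i - j), t.2 / l ^ (j - i)))

/-- the bounding expression -/
noncomputable def bnd (A B : ℝ) (Q : Finset (ℕ × ℕ)) (V W : Finset ℕ) : ℝ :=
  (A * B) ^ ((1:ℝ)/7) * (Q.card : ℝ) ^ ((2:ℝ)/7) * ((V.card : ℝ) * W.card) ^ ((4:ℝ)/7)

/-- A1: the node inequality -/
def NodeStmt : Prop :=
  ∃ C : ℝ, 0 < C ∧ ∀ l : ℝ, 2 ≤ l → ∀ N : ℕ, 0 < N → ∀ (x y : ℕ → ℝ) (F : ℤ → ℝ),
    (∀ i, 0 ≤ x i) → (∀ i, 0 ≤ y i) → (∀ k, 0 ≤ F k) →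
    ∑ i ∈ Finset.range N, x i ≤ 1 → ∑ i ∈ Finset.range N, y i ≤ 1 →
    ∑ k ∈ Finset.Icc (-(N:ℤ)) N, F k ≤ 1 →
    ∃ m < N, ∑ i ∈ Finset.range N, ∑ j ∈ Finset.range N,
        l ^ (-(|(i:ℝ) - j|) / 7) * (F ((i:ℤ) - j)) ^ ((2:ℝ)/7) * (x i * y j) ^ ((4:ℝ)/7)
      ≤ 1 - (1/25) * ((1 - x m) + (1 - y m)) + C / l

/-- A2: splitting at a prime -/
def SplitStmt : Prop :=
  ∀ l : ℕ, l.Prime → ∀ (P : Set ℕ) (V W : Finset ℕ) (Q : Finset (ℕ × ℕ)) (N : ℕ),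
    (∀ v ∈ V, 0 < v ∧ v.factorization l < N) → (∀ w ∈ W, 0 < w ∧ w.factorization l < N) →
    cnt P V W Q ≤ ∑ i ∈ Finset.range N, ∑ j ∈ Finset.range N,
      cnt (P \ {l}) (part l i V) (part l j W) (qpart l i j Q)

/-- A3: the step -/
def StepStmt : Prop :=
  ∃ C : ℝ, 0 < C ∧ ∀ l : ℕ, l.Prime → ∀ (P : Set ℕ) (V W : Finset ℕ) (Q : Finset (ℕ × ℕ))
    (A B D : ℝ), 0 ≤ A → 0 ≤ B → 0 ≤ D → (∀ v ∈ V, 0 < v) → (∀ w ∈ W, 0 < w) →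
    (∀ i j : ℕ, (cnt (P \ {l}) (part l i V) (part l j W) (qpart l i j Q) : ℝ) ≤
      D * bnd (A / (l:ℝ) ^ (i - j)) (B / (l:ℝ) ^ (j - i)) (qpart l i j Q)
        (part l i V) (part l j W)) →
    ∃ m : ℕ, (cnt P V W Q : ℝ) ≤ D * bnd A B Q V W *
      (1 - (1/25) * ((1 - ((part l m V).card : ℝ) / V.card) +
        (1 - ((part l m W).card : ℝ) / W.card)) + C / l)

/-- A4: finitely many primes -/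
def FinStmt : Prop :=
  ∃ C : ℝ, 0 < C ∧ ∀ P : Finset ℕ, (∀ p ∈ P, p.Prime) →
    ∀ (V W : Finset ℕ) (Q : Finset (ℕ × ℕ)) (A B : ℝ), 0 ≤ A → 0 ≤ B →
    (∀ v ∈ V, 0 < v) → (∀ w ∈ W, 0 < w) → (∀ t ∈ Q, (t.1 : ℝ) ≤ A ∧ (t.2 : ℝ) ≤ B) →
    (cnt (P : Set ℕ) V W Q : ℝ) ≤ Real.exp (∑ p ∈ P, C / p) * bnd A B Q V W

/-- A5: the tree inequality -/
def TreeStmt : Prop :=
  ∀ C1 : ℝ, ∃ C : ℝ, 0 < C ∧
    ∀ (V W : Finset ℕ) (Q : Finset (ℕ × ℕ)) (A B : ℝ), 0 ≤ A → 0 ≤ B →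
    (∀ v ∈ V, 0 < v ∧ rp v ≤ C1) → (∀ w ∈ W, 0 < w ∧ rp w ≤ C1) →
    (∀ t ∈ Q, (t.1 : ℝ) ≤ A ∧ (t.2 : ℝ) ≤ B) →
    (cnt Set.univ V W Q : ℝ) ≤ C * bnd A B Q V W

/-! ### Diophantine lemma -/

/-- least `q >= 1` with `nd (q δ) < κ` -/
noncomputable def qmin (δ κ : ℝ) : ℕ := sInf {q : ℕ | 1 ≤ q ∧ nd (q * δ) < κ}

open Classical in
/-- number of `1 <= h < B` with `nd (h δ) < κ` -/
noncomputable def hcount (δ κ B : ℝ) : ℕ :=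
  ((Finset.Icc 1 ⌊B⌋₊).filter (fun h : ℕ => (h:ℝ) < B ∧ nd (h * δ) < κ)).card

def QminStmt : Prop :=
  ∀ δ κ : ℝ, 0 < κ → 1 ≤ qmin δ κ ∧ nd (qmin δ κ * δ) < κ ∧
    (∀ q : ℕ, 1 ≤ q → nd (q * δ) < κ → qmin δ κ ≤ q) ∧
    Int.gcd (qmin δ κ) (round ((qmin δ κ : ℝ) * δ)) = 1

/-- B: the Diophantine dichotomy -/
def DioStmt : Prop :=
  ∀ δ κ B : ℝ, 0 < κ → 0 < B →
    (hcount δ κ B : ℝ) ≤ 24 * κ * B ∨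
    (B * nd (qmin δ κ * δ) < 1 / 2 ∧ ∀ h : ℕ, 1 ≤ h → (h:ℝ) < B → nd (h * δ) < κ →
      qmin δ κ ∣ h ∧
      round ((h:ℝ) * δ) * (qmin δ κ : ℤ) = (h:ℤ) * round ((qmin δ κ : ℝ) * δ))

/-! ### The sets -/

/-- points `β` of `[0,1)` with `|n β - δ - r| < ψ`, `gcd (q r + p, n) = 1` for some `r` -/
def Bset (δ ψ : ℝ) (n : ℕ) (q p : ℤ) : Set ℝ :=
  {β | 0 ≤ β ∧ β < 1 ∧ ∃ r : ℤ, Int.gcd (q * r + p) n = 1 ∧ |(n:ℝ) * β - δ - r| < ψ}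

noncomputable def tau (ψ : ℝ) : ℝ := Real.sqrt (2 * ψ)

/-- the set attached to `n` -/
noncomputable def BB (δ : ℝ) (ψ : ℕ → ℝ) (n : ℕ) : Set ℝ :=
  Bset δ (ψ n) n (qmin δ (tau (ψ n))) (round ((qmin δ (tau (ψ n)) : ℝ) * δ))

/-- C: overlap estimates -/
def OverlapStmt : Prop :=
  ∀ (δ ψx ψy : ℝ) (x y a b h : ℕ) (qx px qy py : ℤ), 0 < x → 0 < y → x ≠ y →
    0 < ψx → 0 < ψy → ψy / y ≤ ψx / x → a = x / x.gcd y → b = y / x.gcd y →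
    h = Int.natAbs ((a:ℤ) - b) →
    (1 / 2 ≤ 2 * b * ψx →
      (volume (Bset δ ψx x qx px ∩ Bset δ ψy y qy py)).toReal ≤ 48 * ψx * ψy) ∧
    (2 * b * ψx < 1 / 2 →
      (volume (Bset δ ψx x qx px ∩ Bset δ ψy y qy py)).toReal ≤ 6 * (ψy / b)) ∧
    (2 * b * ψx < 1 / 2 → (Bset δ ψx x qx px ∩ Bset δ ψy y qy py).Nonempty →
      nd (h * δ) < 2 * b * ψx) ∧
    (2 * b * ψx < 1 / 2 → 2 ≤ a → round ((h:ℝ) * δ) * qx = (h:ℤ) * px →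
      Bset δ ψx x qx px ∩ Bset δ ψy y qy py = ∅)

/-- C: single sets -/
def SingleStmt : Prop :=
  ∀ (δ ψ : ℝ) (n : ℕ) (q p : ℤ), 0 < n → 0 ≤ ψ →
    MeasurableSet (Bset δ ψ n q p) ∧ (volume (Bset δ ψ n q p)).toReal ≤ 6 * ψ

/-- D: local first moment -/
def FirstStmt : Prop :=
  ∀ c a b : ℝ, 0 < c → 0 ≤ a → a < b → b ≤ 1 → ∃ n0 : ℕ, ∀ n : ℕ, n0 ≤ n →
    c ≤ (Nat.totient n : ℝ) / n → ∀ (δ ψ : ℝ) (q p : ℤ), 0 < ψ → ψ ≤ 1 / 8 →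
    Int.gcd q p = 1 →
    c * ψ * (b - a) ≤ (volume (Bset δ ψ n q p ∩ Set.Ioo a b)).toReal

/-- E: Borel-Cantelli lemma with a global second moment bound -/
def BCStmt : Prop :=
  ∀ (S : ℕ → Finset ℕ) (E : ℕ → Set ℝ) (C c : ℝ), 0 < c →
    (∀ n, MeasurableSet (E n)) → (∀ n, E n ⊆ Set.Ico 0 1) →
    (∀ t, ∑ v ∈ S t, ∑ w ∈ S t, (volume (E v ∩ E w)).toReal ≤ C) →
    (∀ a b : ℝ, 0 ≤ a → a < b → b ≤ 1 → ∀ᶠ t in atTop,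
      c * (b - a) ≤ ∑ v ∈ S t, (volume (E v ∩ Set.Ioo a b)).toReal) →
    ∀ᵐ β ∂(volume.restrict (Set.Ico (0:ℝ) 1)), ∃ᶠ t in atTop, ∃ v ∈ S t, β ∈ E v

/-! ### Second moment -/

/-- F0: numbers with `φ(n)/n >= c` -/
def DivSumStmt : Prop :=
  ∀ (c : ℝ) (n : ℕ), 0 < c → 0 < n → c ≤ (Nat.totient n : ℝ) / n →
    ∑ d ∈ n.divisors, (1 : ℝ) / d ≤ 1 / c ∧ rp n ≤ 1 / c

/-- exceptional pairs of bounded multiplicity (`b` given `a` and `ψ = ψ x`) -/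
def Exc (δ ψ : ℝ) (a b : ℕ) : Prop :=
  a ≠ b ∧
  (((b:ℝ) < 1 / tau ψ ∧ (a:ℝ) < 1 / tau ψ ∧ nd ((Int.natAbs ((a:ℤ) - b) : ℕ) * δ) < tau ψ ∧
      hcount δ (tau ψ) (1 / tau ψ) ≤ 24) ∨
   ((b:ℝ) < 1 / tau ψ ∧ 1 / tau ψ ≤ a ∧ ∃ q : ℕ, 1 / (2 * tau ψ) < q ∧ q ≤ a ∧
      Int.gcd q (round ((q:ℝ) * δ)) = 1 ∧ nd (q * δ) < 1 / (2 * a) ∧
      q ∣ Int.natAbs ((a:ℤ) - b)))

/-- F0: multiplicity of exceptional pairs -/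
def MultStmt : Prop :=
  ∀ (δ ψ : ℝ) (a : ℕ), 0 < ψ → 0 < a → ∀ T : Finset ℕ, (∀ b ∈ T, 0 < b ∧ Exc δ ψ a b) →
    T.card ≤ 50

/-- F1: classification of the pairs with small `η` -/
def ClassifyStmt : Prop :=
  ∀ (δ : ℝ) (ψ : ℕ → ℝ) (x y a b : ℕ) (κ Bd : ℝ), 0 < x → 0 < y → x ≠ y →
    0 < ψ x → ψ x ≤ 1 / 8 → 0 < ψ y → ψ y / y ≤ ψ x / x →
    a = x / x.gcd y → b = y / x.gcd y → 2 * b * ψ x < 1 / 2 → 2 ≤ a →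
    (BB δ ψ x ∩ BB δ ψ y).Nonempty →
    2 * b * ψ x ≤ κ → (a:ℝ) ≤ Bd → (b:ℝ) ≤ Bd →
    (hcount δ κ Bd : ℝ) ≤ 24 * κ * Bd ∨ Exc δ (ψ x) a b

/-- `n` lies in the dyadic class `(k, s)` of `ψ` -/
def inClass (ψ : ℕ → ℝ) (k s n : ℕ) : Prop :=
  2 ^ s ≤ n ∧ n < 2 ^ (s + 1) ∧ (1/2 : ℝ) ^ (k + 1) < ψ n / n ∧ ψ n / n ≤ (1/2 : ℝ) ^ k

open Classical in
/-- F2: the contribution of nonspecial pairs of two classes -/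
def NonspecStmt : Prop :=
  ∀ C1 : ℝ, ∃ C : ℝ, 0 < C ∧ ∀ (δ : ℝ) (ψ : ℕ → ℝ) (k s l t m : ℕ) (V W : Finset ℕ),
    k ≤ l → m + s ≤ k →
    (∀ v ∈ V, 0 < v ∧ rp v ≤ C1 ∧ inClass ψ k s v) →
    (∀ w ∈ W, 0 < w ∧ rp w ≤ C1 ∧ inClass ψ l t w) →
    (hcount δ ((2:ℝ) ^ ((m:ℤ) + s + 2 - k)) (max ((2:ℝ) ^ ((m:ℤ) + s + 1 - t)) (2 ^ m)) : ℝ) ≤
      24 * ((2:ℝ) ^ ((m:ℤ) + s + 2 - k)) * (max ((2:ℝ) ^ ((m:ℤ) + s + 1 - t)) (2 ^ m)) →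
    ∑ z ∈ (V ×ˢ W).filter (fun z => z.1 ≠ z.2 ∧ z.2 / z.1.gcd z.2 ≤ 2 ^ m ∧
        2 ^ m < 2 * (z.2 / z.1.gcd z.2) ∧
        nd ((Int.natAbs ((z.1 / z.1.gcd z.2 : ℕ) - (z.2 / z.1.gcd z.2 : ℕ) : ℤ) : ℕ) * δ) <
          (2:ℝ) ^ ((m:ℤ) + s + 2 - k)),
      ψ z.2 / (z.2 / z.1.gcd z.2 : ℕ) ≤
    C * (2:ℝ) ^ (((m:ℝ) + s - k) / 7) * (2:ℝ) ^ (-(3 * ((l:ℝ) - k)) / 7) *
      ((∑ v ∈ V, ψ v) * (∑ w ∈ W, ψ w)) ^ ((4:ℝ)/7)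

/-- F3: summation over the classes -/
def ClassSumStmt : Prop :=
  ∀ C0 : ℝ, ∃ C : ℝ, 0 < C ∧ ∀ (N : ℕ) (x : ℕ → ℕ → ℝ), (∀ k s, 0 ≤ x k s) →
    ∑ k ∈ Finset.range N, ∑ s ∈ Finset.range N, x k s ≤ 1 →
    (∀ k < N, ∑ s ∈ Finset.range N, (x k s) ^ ((1:ℝ)/7) ≤ C0) →
    ∑ k ∈ Finset.range N, ∑ l ∈ (Finset.range N).filter (fun l => k ≤ l),
      ∑ s ∈ Finset.range N, ∑ t ∈ Finset.range N,
      ∑ m ∈ (Finset.range N).filter (fun m => m + s ≤ k),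
        (2:ℝ) ^ (((m:ℝ) + s - k) / 7) * (2:ℝ) ^ (-(3 * ((l:ℝ) - k)) / 7) *
          (x k s * x l t) ^ ((4:ℝ)/7) ≤ C

open Classical in
/-- mass of the class `(k, s)` of `ψ` on `S` -/
noncomputable def cmass (ψ : ℕ → ℝ) (S : Finset ℕ) (k s : ℕ) : ℝ :=
  ∑ n ∈ S.filter (fun n => inClass ψ k s n), ψ n

/-- F: the second moment bound -/
def SecondStmt : Prop :=
  ∀ c C0 : ℝ, 0 < c → ∃ C : ℝ, 0 < C ∧ ∀ (δ : ℝ) (ψ : ℕ → ℝ) (S : Finset ℕ),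
    (∀ n ∈ S, 0 < n ∧ c ≤ (Nat.totient n : ℝ) / n ∧ 0 < ψ n ∧ ψ n ≤ 1 / 8) →
    ∑ n ∈ S, ψ n ≤ 1 →
    (∀ (k : ℕ) (T : Finset ℕ), ∑ s ∈ T, (cmass ψ S k s) ^ ((1:ℝ)/7) ≤ C0) →
    ∑ x ∈ S, ∑ y ∈ S, (volume (BB δ ψ x ∩ BB δ ψ y)).toReal ≤ C

/-! ### The main theorem -/

/-- mass of `Φ` on the `n` in `[2^s, 2^(s+1))` with `2^(-k-1) < Φ n / n <= 2^(-k)` -/
noncomputable def mass (Φ : ℕ → ℝ) (k : ℤ) (s : ℕ) : ℝ :=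
  open Classical in
  ∑ n ∈ (Finset.Ico (2 ^ s) (2 ^ (s + 1))).filter
    (fun n : ℕ => (1/2 : ℝ) ^ (k + 1) < Φ n / n ∧ Φ n / n ≤ (1/2 : ℝ) ^ k), Φ n

/-- for each dyadic level of `Φ n / n` the masses of the dyadic blocks, capped at `1`, have
bounded sum of seventh roots (in particular if every level set meets boundedly many dyadic
blocks) -/
def Spread (Φ : ℕ → ℝ) : Prop :=
  ∃ C0 : ℝ, ∀ (k : ℤ) (T : Finset ℕ), ∑ s ∈ T, (min 1 (mass Φ k s)) ^ ((1:ℝ)/7) ≤ C0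

/-- condition (H1) -/
def H1 (Φ : ℕ → ℝ) : Prop :=
  Tendsto (fun N : ℕ => ∑ n ∈ Finset.Icc 1 N, (Nat.totient n : ℝ) / n * Φ n) atTop atTop

/-- condition (H2) -/
def H2 (Φ : ℕ → ℝ) : Prop :=
  0 < limsup (fun N : ℕ => (∑ n ∈ Finset.Icc 1 N, (Nat.totient n : ℝ) / n * Φ n) *
    (∑ n ∈ Finset.Icc 1 N, Φ n)⁻¹) atTop

/-- the conclusion -/
def Concl (δ : ℝ) (Φ : ℕ → ℝ) : Prop :=
  ∀ᵐ β : ℝ, {n : ℕ | 1 ≤ n ∧ nd (n * β - δ) < Φ n}.Infinite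

/-- the main theorem -/
def MainStmt : Prop :=
  ∀ (δ : ℝ) (Φ : ℕ → ℝ), (∀ n, 0 ≤ Φ n) → H1 Φ → H2 Φ → Spread Φ → Concl δ Φ

/-- corollary: `Φ = ψ` on an arbitrary set and `0` elsewhere, `ψ` nonincreasing -/
def CorMonoStmt : Prop :=
  ∀ (δ : ℝ) (Φ ψ : ℕ → ℝ), (∀ n, 0 ≤ Φ n) → (∀ m n : ℕ, 1 ≤ m → m ≤ n → ψ n ≤ ψ m) →
    (∀ n, 1 ≤ n → Φ n = 0 ∨ Φ n = ψ n) → H1 Φ → H2 Φ → Concl δ Φ

/-- corollary: growth at most `(n/m)^(1-κ)` along the support -/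
def CorRegStmt : Prop :=
  ∀ (δ : ℝ) (Φ : ℕ → ℝ) (κ C : ℝ), (∀ n, 0 ≤ Φ n) → 0 < κ →
    (∀ m n : ℕ, 1 ≤ m → m < n → 0 < Φ m → 0 < Φ n →
      Φ n ≤ C * ((n:ℝ) / m) ^ (1 - κ) * Φ m) → H1 Φ → H2 Φ → Concl δ Φ

/-- corollary: `Φ n = O(1/n)` -/
def CorInvStmt : Prop :=
  ∀ (δ : ℝ) (Φ : ℕ → ℝ) (C : ℝ), (∀ n, 0 ≤ Φ n) → (∀ n : ℕ, 1 ≤ n → Φ n ≤ C / n) →
    H1 Φ → H2 Φ → Concl δ Φ

end Pool.Agent.MP_0863b8
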