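import Pool.Agent.Work.MP_0863b8_nt.Defs

/-!
MP_0863b8_nt, item 7: measurability and size of the sets, and the overlap estimates.
-/

namespace Pool.Agent.MP_0863b8

open MeasureTheory

/-- points of `[0,1)` with `g β` within `ε` of `c + Z` -/
def Aset (c ε : ℝ) (g : ℕ) : Set ℝ :=
  {β | 0 ≤ β ∧ β < 1 ∧ ∃ t : ℤ, |(g:ℝ) * β - c - t| < ε}

lemma Aset_volume_le (c ε : ℝ) (g : ℕ) (hg : 0 < g) (hε : 0 ≤ ε) :
    volume (Aset c ε g) ≤ ENNReal.ofReal (6 * ε) := by
  have hgR : (0:ℝ) < g := by exact_mod_cast hg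
  have hg1 : (1:ℝ) ≤ g := by exact_mod_cast hg
  by_cases h6 : 1 / 6 ≤ ε
  · calc volume (Aset c ε g) ≤ volume (Set.Ico (0:ℝ) 1) :=
          measure_mono (fun β hβ => ⟨hβ.1, hβ.2.1⟩)
      _ = ENNReal.ofReal 1 := by rw [Real.volume_Ico]; norm_num
      _ ≤ ENNReal.ofReal (6 * ε) := ENNReal.ofReal_le_ofReal (by linarith)
  · push Not at h6
    set F : Finset ℤ := Finset.Icc ⌈-c - ε⌉ ⌊(g:ℝ) - c + ε⌋ with hF
    have hsub : Aset c ε g ⊆ ⋃ t ∈ F, Set.Ioo ((c + t - ε) / g) ((c + t + ε) / g) := by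
      intro β hβ
      obtain ⟨h0, h1, t, ht⟩ := hβ
      rw [abs_lt] at ht
      have hgb0 : 0 ≤ (g:ℝ) * β := by positivity
      have hgb1 : (g:ℝ) * β ≤ g := by nlinarith
      simp only [Set.mem_iUnion]
      refine ⟨t, ?_, ?_, ?_⟩
      · rw [hF, Finset.mem_Icc]
        constructor
        · rw [Int.ceil_le]; linarith [ht.1, ht.2]
        · rw [Int.le_floor]; linarith [ht.1, ht.2]
      · rw [div_lt_iff₀ hgR]; nlinarith [ht.1, ht.2]
      · rw [lt_div_iff₀ hgR]; nlinarith [ht.1, ht.2]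
    have hcard : (F.card : ℝ) ≤ 3 * g := by
      rw [hF, Int.card_Icc]
      have h1 : (⌊(g:ℝ) - c + ε⌋ : ℝ) ≤ (g:ℝ) - c + ε := Int.floor_le _
      have h2 : (-c - ε : ℝ) ≤ (⌈-c - ε⌉ : ℝ) := Int.le_ceil _
      rcases le_total (⌊(g:ℝ) - c + ε⌋ + 1 - ⌈-c - ε⌉) 0 with h | h
      · rw [Int.toNat_of_nonpos h]; simp
      · have h3 : (((⌊(g:ℝ) - c + ε⌋ + 1 - ⌈-c - ε⌉).toNat : ℤ) : ℝ) =
            ((⌊(g:ℝ) - c + ε⌋ + 1 - ⌈-c - ε⌉ : ℤ) : ℝ) := by
          rw [Int.toNat_of_nonneg h]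
        have h4 : (((⌊(g:ℝ) - c + ε⌋ + 1 - ⌈-c - ε⌉).toNat : ℕ) : ℝ) =
            (((⌊(g:ℝ) - c + ε⌋ + 1 - ⌈-c - ε⌉).toNat : ℤ) : ℝ) := by
          norm_cast
        rw [h4, h3]
        push_cast
        linarith
    calc volume (Aset c ε g)
        ≤ volume (⋃ t ∈ F, Set.Ioo ((c + t - ε) / g) ((c + t + ε) / g)) := measure_mono hsub
      _ ≤ ∑ t ∈ F, volume (Set.Ioo ((c + t - ε) / g) ((c + t + ε) / g)) :=
          measure_biUnion_finset_le _ _
      _ = ∑ t ∈ F, ENNReal.ofReal (2 * ε / g) := by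
          apply Finset.sum_congr rfl
          intro t _
          rw [Real.volume_Ioo]
          congr 1
          field_simp
          ring
      _ = ENNReal.ofReal (F.card * (2 * ε / g)) := by
          rw [Finset.sum_const, nsmul_eq_mul, ENNReal.ofReal_mul (by positivity)]
          congr 1
          simp
      _ ≤ ENNReal.ofReal (6 * ε) := by
          apply ENNReal.ofReal_le_ofReal
          calc (F.card : ℝ) * (2 * ε / g) ≤ (3 * g) * (2 * ε / g) :=
                mul_le_mul_of_nonneg_right hcard (by positivity)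
            _ = 6 * ε := by field_simp; ring

lemma Bset_eq (δ ψ : ℝ) (n : ℕ) (q p : ℤ) :
    Bset δ ψ n q p = Set.Ico (0:ℝ) 1 ∩
      ⋃ r : ℤ, {β : ℝ | Int.gcd (q * r + p) n = 1 ∧ |(n:ℝ) * β - δ - r| < ψ} := by
  ext β
  simp only [Bset, Set.mem_setOf_eq, Set.mem_inter_iff, Set.mem_Ico, Set.mem_iUnion, and_assoc]

lemma Bset_measurable (δ ψ : ℝ) (n : ℕ) (q p : ℤ) : MeasurableSet (Bset δ ψ n q p) := by
  rw [Bset_eq]
  refine measurableSet_Ico.inter (MeasurableSet.iUnion fun r => ?_)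
  by_cases h : Int.gcd (q * r + p) n = 1
  · have : {β : ℝ | Int.gcd (q * r + p) n = 1 ∧ |(n:ℝ) * β - δ - r| < ψ} =
        {β : ℝ | |(n:ℝ) * β - δ - r| < ψ} := by
      ext β; simp [h]
    rw [this]
    apply IsOpen.measurableSet
    apply isOpen_lt
    · fun_prop
    · fun_prop
  · have : {β : ℝ | Int.gcd (q * r + p) n = 1 ∧ |(n:ℝ) * β - δ - r| < ψ} = ∅ := by
      ext β; simp [h]
    rw [this]
    exact MeasurableSet.empty

theorem single : SingleStmt := by
  intro δ ψ n q p hn hψ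
  refine ⟨Bset_measurable δ ψ n q p, ?_⟩
  apply ENNReal.toReal_le_of_le_ofReal (by positivity)
  refine le_trans (measure_mono ?_) (Aset_volume_le δ ψ n hn hψ)
  intro β hβ
  obtain ⟨h0, h1, r, _, hr⟩ := hβ
  exact ⟨h0, h1, r, hr⟩

lemma nd_le (x : ℝ) (m : ℤ) : nd x ≤ |x - m| := round_le x m

lemma round_of_close (x : ℝ) (m : ℤ) (h : |x - m| < 1 / 2) : round x = m := by
  rw [abs_lt] at h
  rw [round_eq, Int.floor_eq_iff]
  constructor <;> linarith [h.1, h.2]

/-- points of both sets with `b r - a s = k` -/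
def Sk (δ ψx ψy : ℝ) (x y a b : ℕ) (k : ℤ) : Set ℝ :=
  {β | 0 ≤ β ∧ β < 1 ∧ ∃ r s : ℤ, (b:ℤ) * r - a * s = k ∧ |(x:ℝ) * β - δ - r| < ψx ∧
    |(y:ℝ) * β - δ - s| < ψy}

lemma Sk_volume (δ ψx ψy : ℝ) (x y a b g : ℕ) (k : ℤ) (hg : 0 < g) (hb : 0 < b)
    (hab : Nat.Coprime a b) (hy : y = g * b) (hψy : 0 ≤ ψy) :
    volume (Sk δ ψx ψy x y a b k) ≤ ENNReal.ofReal (6 * (ψy / b)) := by
  have hbR : (0:ℝ) < b := by exact_mod_cast hb
  by_cases hne : ∃ r0 s0 : ℤ, (b:ℤ) * r0 - a * s0 = k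
  · obtain ⟨r0, s0, h0⟩ := hne
    refine le_trans (measure_mono ?_)
      (Aset_volume_le ((δ + s0) / b) (ψy / b) g hg (by positivity))
    intro β hβ
    obtain ⟨hβ0, hβ1, r, s, hk, _, hs⟩ := hβ
    refine ⟨hβ0, hβ1, ?_⟩
    have hdvd : (b:ℤ) ∣ s - s0 := by
      have h1 : (b:ℤ) ∣ (a:ℤ) * (s - s0) := ⟨r - r0, by linarith⟩
      have h2 : IsCoprime (b:ℤ) (a:ℤ) := by
        rw [Nat.isCoprime_iff_coprime]; exact hab.symm
      exact h2.dvd_of_dvd_mul_left h1
    obtain ⟨t, ht⟩ := hdvd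
    refine ⟨t, ?_⟩
    have hsR : (s:ℝ) = s0 + b * t := by
      have : s = s0 + b * t := by linarith
      rw [this]; push_cast; ring
    have hyR : (y:ℝ) = g * b := by rw [hy]; push_cast; ring
    have heq : (g:ℝ) * β - (δ + s0) / b - t = ((y:ℝ) * β - δ - s) / b := by
      rw [hsR, hyR]; field_simp; ring
    rw [heq, abs_div, abs_of_pos hbR]
    exact div_lt_div_of_pos_right hs hbR
  · have : Sk δ ψx ψy x y a b k = ∅ := by
      ext β
      simp only [Sk, Set.mem_setOf_eq, Set.mem_empty_iff_false, iff_false]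
      rintro ⟨_, _, r, s, hk, _⟩
      exact hne ⟨r, s, hk⟩
    rw [this]
    simp

theorem overlap : OverlapStmt := by
  intro δ ψx ψy x y a b h qx px qy py hx hy hxy hψx hψy hψ ha hb hh
  set g := x.gcd y with hgdef
  have hg : 0 < g := Nat.gcd_pos_of_pos_left y hx
  have hxg : x = g * a := by rw [ha]; exact (Nat.mul_div_cancel' (Nat.gcd_dvd_left x y)).symm
  have hyg : y = g * b := by rw [hb]; exact (Nat.mul_div_cancel' (Nat.gcd_dvd_right x y)).symm
  have hapos : 0 < a := by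
    rcases Nat.eq_zero_or_pos a with h0 | h0
    · rw [h0, mul_zero] at hxg; omega
    · exact h0
  have hbpos : 0 < b := by
    rcases Nat.eq_zero_or_pos b with h0 | h0
    · rw [h0, mul_zero] at hyg; omega
    · exact h0
  have hab : Nat.Coprime a b := by
    rw [ha, hb]; exact Nat.coprime_div_gcd_div_gcd hg
  have hgR : (0:ℝ) < g := by exact_mod_cast hg
  have haR : (0:ℝ) < a := by exact_mod_cast hapos
  have hbR : (0:ℝ) < b := by exact_mod_cast hbpos
  have hxR : (x:ℝ) = g * a := by rw [hxg]; push_cast; ring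
  have hyR : (y:ℝ) = g * b := by rw [hyg]; push_cast; ring
  have hcomp : (a:ℝ) * ψy ≤ b * ψx := by
    rw [hxR, hyR, div_le_div_iff₀ (by positivity) (by positivity)] at hψ
    have : (g:ℝ) * (a * ψy) ≤ g * (b * ψx) := by nlinarith
    exact le_of_mul_le_mul_left this hgR
  -- the key inequality
  have key : ∀ (β : ℝ) (r s : ℤ), |(x:ℝ) * β - δ - r| < ψx → |(y:ℝ) * β - δ - s| < ψy →
      |(((b:ℤ) * r - a * s : ℤ) : ℝ) + ((b:ℝ) - a) * δ| < 2 * b * ψx := by
    intro β r s h1 h2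
    have e : (((b:ℤ) * r - a * s : ℤ) : ℝ) + ((b:ℝ) - a) * δ =
        a * ((y:ℝ) * β - δ - s) - b * ((x:ℝ) * β - δ - r) := by
      rw [hxR, hyR]; push_cast; ring
    rw [e]
    rw [abs_lt] at h1 h2 ⊢
    constructor
    · nlinarith [h1.1, h1.2, h2.1, h2.2]
    · nlinarith [h1.1, h1.2, h2.1, h2.2]
  have hsub : Bset δ ψx x qx px ∩ Bset δ ψy y qy py ⊆
      {β | 0 ≤ β ∧ β < 1 ∧ ∃ r s : ℤ, |(x:ℝ) * β - δ - r| < ψx ∧
        |(y:ℝ) * β - δ - s| < ψy} := by
    rintro β ⟨⟨h0, h1, r, _, hr⟩, ⟨_, _, s, _, hs⟩⟩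
    exact ⟨h0, h1, r, s, hr, hs⟩
  refine ⟨?_, ?_, ?_, ?_⟩
  · intro hbig
    apply ENNReal.toReal_le_of_le_ofReal (by positivity)
    set u : ℝ := ((b:ℝ) - a) * δ with hu
    set M : ℝ := 2 * b * ψx with hM
    set F : Finset ℤ := Finset.Icc ⌈-u - M⌉ ⌊-u + M⌋ with hF
    have hcard : (F.card : ℝ) ≤ 4 * M := by
      rw [hF, Int.card_Icc]
      have h1 : (⌊-u + M⌋ : ℝ) ≤ -u + M := Int.floor_le _
      have h2 : (-u - M : ℝ) ≤ (⌈-u - M⌉ : ℝ) := Int.le_ceil _
      rcases le_total (⌊-u + M⌋ + 1 - ⌈-u - M⌉) 0 with h | h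
      · rw [Int.toNat_of_nonpos h]; simp; positivity
      · have h3 : (((⌊-u + M⌋ + 1 - ⌈-u - M⌉).toNat : ℤ) : ℝ) =
            ((⌊-u + M⌋ + 1 - ⌈-u - M⌉ : ℤ) : ℝ) := by
          rw [Int.toNat_of_nonneg h]
        have h4 : (((⌊-u + M⌋ + 1 - ⌈-u - M⌉).toNat : ℕ) : ℝ) =
            (((⌊-u + M⌋ + 1 - ⌈-u - M⌉).toNat : ℤ) : ℝ) := by
          norm_cast
        rw [h4, h3]
        push_cast
        linarith
    calc volume (Bset δ ψx x qx px ∩ Bset δ ψy y qy py)
        ≤ volume (⋃ k ∈ F, Sk δ ψx ψy x y a b k) := by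
          apply measure_mono
          intro β hβ
          obtain ⟨h0, h1, r, s, hr, hs⟩ := hsub hβ
          have hk := key β r s hr hs
          rw [abs_lt] at hk
          simp only [Set.mem_iUnion]
          refine ⟨(b:ℤ) * r - a * s, ?_, h0, h1, r, s, rfl, hr, hs⟩
          rw [hF, Finset.mem_Icc]
          constructor
          · rw [Int.ceil_le]; linarith [hk.1]
          · rw [Int.le_floor]; linarith [hk.2]
      _ ≤ ∑ k ∈ F, volume (Sk δ ψx ψy x y a b k) := measure_biUnion_finset_le _ _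
      _ ≤ ∑ k ∈ F, ENNReal.ofReal (6 * (ψy / b)) :=
          Finset.sum_le_sum (fun k _ => Sk_volume δ ψx ψy x y a b g k hg hbpos hab hyg hψy.le)
      _ = ENNReal.ofReal (F.card * (6 * (ψy / b))) := by
          rw [Finset.sum_const, nsmul_eq_mul, ENNReal.ofReal_mul (by positivity)]
          congr 1
          simp
      _ ≤ ENNReal.ofReal (48 * ψx * ψy) := by
          apply ENNReal.ofReal_le_ofReal
          calc (F.card : ℝ) * (6 * (ψy / b)) ≤ (4 * M) * (6 * (ψy / b)) :=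
                mul_le_mul_of_nonneg_right hcard (by positivity)
            _ = 48 * ψx * ψy := by rw [hM]; field_simp; ring
  · intro hsmall
    apply ENNReal.toReal_le_of_le_ofReal (by positivity)
    by_cases hne : (Bset δ ψx x qx px ∩ Bset δ ψy y qy py).Nonempty
    · obtain ⟨β0, hβ0⟩ := hne
      obtain ⟨_, _, r0, s0, hr0, hs0⟩ := hsub hβ0
      have hk0 := key β0 r0 s0 hr0 hs0
      refine le_trans (measure_mono ?_)
        (Sk_volume δ ψx ψy x y a b g ((b:ℤ) * r0 - a * s0) hg hbpos hab hyg hψy.le)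
      intro β hβ
      obtain ⟨h0, h1, r, s, hr, hs⟩ := hsub hβ
      have hk := key β r s hr hs
      refine ⟨h0, h1, r, s, ?_, hr, hs⟩
      rw [abs_lt] at hk hk0
      have e1 : ((((b:ℤ) * r - a * s) - ((b:ℤ) * r0 - a * s0) : ℤ) : ℝ) < 1 := by
        push_cast at hk hk0 ⊢; linarith [hk.2, hk0.1]
      have e2 : (-1 : ℝ) < ((((b:ℤ) * r - a * s) - ((b:ℤ) * r0 - a * s0) : ℤ) : ℝ) := by
        push_cast at hk hk0 ⊢; linarith [hk.1, hk0.2]
      have e1' : ((b:ℤ) * r - a * s) - ((b:ℤ) * r0 - a * s0) < 1 := by exact_mod_cast e1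
      have e2' : (-1 : ℤ) < ((b:ℤ) * r - a * s) - ((b:ℤ) * r0 - a * s0) := by
        exact_mod_cast e2
      omega
    · rw [Set.not_nonempty_iff_eq_empty] at hne
      rw [hne]; simp
  · intro hsmall hne
    obtain ⟨β, hβ⟩ := hne
    obtain ⟨_, _, r, s, hr, hs⟩ := hsub hβ
    have hk := key β r s hr hs
    rcases le_total a b with hle | hle
    · have hhR : (h:ℝ) = b - a := by
        have : (h:ℤ) = b - a := by rw [hh]; omega
        have h2 : ((h:ℤ):ℝ) = ((b - a : ℤ) : ℝ) := by rw [this]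
        push_cast at h2; exact h2
      refine lt_of_le_of_lt (nd_le (h * δ) (-((b:ℤ) * r - a * s))) ?_
      rw [hhR]
      have e : ((b:ℝ) - a) * δ - ((-((b:ℤ) * r - a * s) : ℤ) : ℝ) =
        (((b:ℤ) * r - a * s : ℤ) : ℝ) + ((b:ℝ) - a) * δ := by push_cast; ring
      rw [e]; exact hk
    · have hhR : (h:ℝ) = a - b := by
        have : (h:ℤ) = a - b := by rw [hh]; omega
        have h2 : ((h:ℤ):ℝ) = ((a - b : ℤ) : ℝ) := by rw [this]
        push_cast at h2; exact h2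
      refine lt_of_le_of_lt (nd_le (h * δ) ((b:ℤ) * r - a * s)) ?_
      rw [hhR]
      have e : ((a:ℝ) - b) * δ - (((b:ℤ) * r - a * s : ℤ) : ℝ) =
        -((((b:ℤ) * r - a * s : ℤ) : ℝ) + ((b:ℝ) - a) * δ) := by push_cast; ring
      rw [e, abs_neg]; exact hk
  · intro hsmall ha2 hround
    rw [Set.eq_empty_iff_forall_notMem]
    intro β hβ
    obtain ⟨⟨_, _, r, hgcd, hr⟩, ⟨_, _, s, _, hs⟩⟩ := hβ
    have hk := key β r s hr hs
    have hmain : (b:ℤ) * (qx * r + px) = a * (qx * s + px) := by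
      rcases le_total a b with hle | hle
      · have hhZ : (h:ℤ) = b - a := by rw [hh]; omega
        have hhR : (h:ℝ) = b - a := by
          have h2 : ((h:ℤ):ℝ) = ((b - a : ℤ) : ℝ) := by rw [hhZ]
          push_cast at h2; exact h2
        have hrd : round ((h:ℝ) * δ) = -((b:ℤ) * r - a * s) := by
          apply round_of_close
          rw [hhR]
          have e : ((b:ℝ) - a) * δ - ((-((b:ℤ) * r - a * s) : ℤ) : ℝ) =
            (((b:ℤ) * r - a * s : ℤ) : ℝ) + ((b:ℝ) - a) * δ := by push_cast; ring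
          rw [e]; linarith
        rw [hrd, hhZ] at hround
        linear_combination (-1 : ℤ) * hround
      · have hhZ : (h:ℤ) = a - b := by rw [hh]; omega
        have hhR : (h:ℝ) = a - b := by
          have h2 : ((h:ℤ):ℝ) = ((a - b : ℤ) : ℝ) := by rw [hhZ]
          push_cast at h2; exact h2
        have hrd : round ((h:ℝ) * δ) = ((b:ℤ) * r - a * s) := by
          apply round_of_close
          rw [hhR]
          have e : ((a:ℝ) - b) * δ - (((b:ℤ) * r - a * s : ℤ) : ℝ) =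
            -((((b:ℤ) * r - a * s : ℤ) : ℝ) + ((b:ℝ) - a) * δ) := by push_cast; ring
          rw [e, abs_neg]; linarith
        rw [hrd, hhZ] at hround
        linear_combination hround
    have hdvd : (a:ℤ) ∣ qx * r + px := by
      have h1 : (a:ℤ) ∣ (b:ℤ) * (qx * r + px) := ⟨_, hmain⟩
      have h2 : IsCoprime (a:ℤ) (b:ℤ) := by
        rw [Nat.isCoprime_iff_coprime]; exact hab
      exact h2.dvd_of_dvd_mul_left h1
    have hdvdx : (a:ℤ) ∣ (x:ℤ) := by
      rw [hxg]; push_cast; exact ⟨g, by ring⟩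
    have hd : (a:ℤ) ∣ ((Int.gcd (qx * r + px) x : ℕ) : ℤ) := Int.dvd_coe_gcd hdvd hdvdx
    rw [hgcd] at hd
    have : (a:ℤ) ≤ 1 := Int.le_of_dvd (by norm_num) (by simpa using hd)
    omega

end Pool.Agent.MP_0863b8
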