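import Pool.Agent.Work.MP_0863b8_nt.Bd.B02

/-!
Rational shifts: second moment bound and the theorem for all rational `δ` and arbitrary `Φ`.
-/

namespace Pool.Agent.MP_0863b8

open MeasureTheory Filter

/-- `nd (h * (P/Q))` is `0` or at least `1/Q` -/
theorem nd_rat (Q : ℕ) (P : ℤ) (hQ : 0 < Q) (h : ℕ) :
    (round ((h:ℝ) * ((P:ℝ) / Q)) * (Q:ℤ) = (h:ℤ) * P) ∨
      1 / (Q:ℝ) ≤ nd (h * ((P:ℝ) / Q)) := by
  have hQR : (0:ℝ) < Q := by exact_mod_cast hQ
  by_cases hz : round ((h:ℝ) * ((P:ℝ) / Q)) * (Q:ℤ) = (h:ℤ) * P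
  · exact Or.inl hz
  · right
    have h1 : 1 ≤ |(h:ℤ) * P - round ((h:ℝ) * ((P:ℝ) / Q)) * (Q:ℤ)| := by
      apply Int.one_le_abs
      intro h0
      apply hz
      linarith
    have h1R : (1:ℝ) ≤ |((h:ℝ) * P - round ((h:ℝ) * ((P:ℝ) / Q)) * (Q:ℝ))| := by
      exact_mod_cast h1
    unfold nd
    have e : (h:ℝ) * ((P:ℝ) / Q) - round ((h:ℝ) * ((P:ℝ) / Q)) =
        ((h:ℝ) * P - round ((h:ℝ) * ((P:ℝ) / Q)) * (Q:ℝ)) / Q := by
      field_simp
    rw [e, abs_div, abs_of_pos hQR]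
    exact div_le_div_of_nonneg_right h1R hQR.le

/-- the bound for a single pair -/
theorem pair_bound_rat (Q : ℕ) (P : ℤ) (hQ : 0 < Q) (ψ : ℕ → ℝ) (x y : ℕ)
    (hx0 : 0 < x) (hy0 : 0 < y) (hxy : x ≠ y) (hψx : 0 < ψ x) (hψy : 0 < ψ y)
    (hρ : ψ y / y ≤ ψ x / x) :
    (volume (Bset ((P:ℝ) / Q) (ψ x) x Q P ∩ Bset ((P:ℝ) / Q) (ψ y) y Q P)).toReal ≤
      (48 + 12 * Q) * (ψ x * ψ y) +
      (if x / x.gcd y = 1 then 6 * (ψ y / ((y / x.gcd y : ℕ) : ℝ)) else 0) := by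
  set a := x / x.gcd y with ha
  set b := y / x.gcd y with hb
  have hg0 : 0 < x.gcd y := Nat.gcd_pos_of_pos_left _ hx0
  have ha0 : 0 < a := Nat.div_pos (Nat.le_of_dvd hx0 (Nat.gcd_dvd_left _ _)) hg0
  have hb0 : 0 < b := Nat.div_pos (Nat.le_of_dvd hy0 (Nat.gcd_dvd_right _ _)) hg0
  have hbR : (0:ℝ) < b := by exact_mod_cast hb0
  have hQR : (0:ℝ) < Q := by exact_mod_cast hQ
  obtain ⟨o1, o2, o3, o4⟩ := overlap ((P:ℝ) / Q) (ψ x) (ψ y) x y a b (Int.natAbs ((a:ℤ) - b))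
    Q P Q P hx0 hy0 hxy hψx hψy hρ ha hb rfl
  have n1 : 0 ≤ ψ x * ψ y := by positivity
  have n2 : 0 ≤ (if a = 1 then 6 * (ψ y / (b : ℝ)) else 0) := by
    split_ifs <;> positivity
  rcases le_or_gt (1/2) (2 * b * ψ x) with hη | hη
  · have := o1 hη
    nlinarith [this]
  have hov := o2 hη
  rcases Nat.lt_or_ge 1 a with ha2 | ha1
  swap
  · have : a = 1 := by omega
    rw [if_pos this] at n2 ⊢
    have : 0 ≤ (48 + 12 * (Q:ℝ)) * (ψ x * ψ y) := by positivity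
    linarith
  set BB1 := Bset ((P:ℝ) / Q) (ψ x) x Q P ∩ Bset ((P:ℝ) / Q) (ψ y) y Q P with hBB1
  rcases BB1.eq_empty_or_nonempty with he | hne
  · rw [he, measure_empty]
    simp only [ENNReal.toReal_zero]
    positivity
  rcases nd_rat Q P hQ (Int.natAbs ((a:ℤ) - b)) with hz | hz
  · have := o4 hη ha2 hz
    rw [this, measure_empty]
    simp only [ENNReal.toReal_zero]
    positivity
  · have h3 := o3 hη hne
    have h4 : 1 / (Q:ℝ) < 2 * b * ψ x := lt_of_le_of_lt hz h3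
    have h5 : 1 < 2 * b * ψ x * Q := by
      rw [div_lt_iff₀ hQR] at h4
      exact h4
    have h6 : ψ y / b ≤ 2 * Q * (ψ x * ψ y) := by
      rw [div_le_iff₀ hbR]
      nlinarith [mul_lt_mul_of_pos_left h5 hψy]
    nlinarith

theorem second_rat (Q : ℕ) (P : ℤ) (hQ : 0 < Q) (c : ℝ) (hc : 0 < c) (ψ : ℕ → ℝ)
    (S : Finset ℕ)
    (hS : ∀ n ∈ S, 0 < n ∧ c ≤ (Nat.totient n : ℝ) / n ∧ 0 < ψ n ∧ ψ n ≤ 1 / 8)
    (hsum : ∑ n ∈ S, ψ n ≤ 1) :
    ∑ x ∈ S, ∑ y ∈ S, (volume (Bset ((P:ℝ) / Q) (ψ x) x Q P ∩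
      Bset ((P:ℝ) / Q) (ψ y) y Q P)).toReal ≤ 6 + 2 * (48 + 12 * Q + 6 * (1 / c)) := by
  classical
  set ov : ℕ → ℕ → ℝ := fun x y => (volume (Bset ((P:ℝ) / Q) (ψ x) x Q P ∩
      Bset ((P:ℝ) / Q) (ψ y) y Q P)).toReal with hov
  have hovs : ∀ x y, ov x y = ov y x := by
    intro x y
    simp only [hov]
    rw [Set.inter_comm]
  set F : ℕ → ℕ → ℝ := fun x y => (48 + 12 * Q) * (ψ x * ψ y) +
      (if x / x.gcd y = 1 then 6 * (ψ y / ((y / x.gcd y : ℕ) : ℝ)) else 0) with hF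
  have hF0 : ∀ x ∈ S, ∀ y ∈ S, 0 ≤ F x y := by
    intro x hx y hy
    have := (hS x hx).2.2.1
    have := (hS y hy).2.2.1
    simp only [hF]
    have n2 : 0 ≤ (if x / x.gcd y = 1 then 6 * (ψ y / ((y / x.gcd y : ℕ) : ℝ)) else 0) := by
      split_ifs <;> positivity
    positivity
  have hpt : ∀ x ∈ S, ∀ y ∈ S, ov x y ≤ (if x = y then 6 * ψ x else 0) + F x y + F y x := by
    intro x hx y hy
    obtain ⟨hx0, hxc, hψx, hψx8⟩ := hS x hx
    obtain ⟨hy0, hyc, hψy, hψy8⟩ := hS y hy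
    by_cases hxy : x = y
    · rw [if_pos hxy]
      subst hxy
      have e : ov x x = (volume (Bset ((P:ℝ) / Q) (ψ x) x Q P)).toReal := by
        simp only [hov, Set.inter_self]
      have := (single ((P:ℝ) / Q) (ψ x) x Q P hx0 hψx.le).2
      rw [e]
      have h3 := hF0 x hx x hx
      linarith
    · rw [if_neg hxy]
      rcases le_total (ψ y / y) (ψ x / x) with hρ | hρ
      · have := pair_bound_rat Q P hQ ψ x y hx0 hy0 hxy hψx hψy hρ
        have h3 := hF0 y hy x hx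
        change ov x y ≤ F x y at this
        linarith
      · have := pair_bound_rat Q P hQ ψ y x hy0 hx0 (Ne.symm hxy) hψy hψx hρ
        have h3 := hF0 x hx y hy
        change ov y x ≤ F y x at this
        rw [hovs x y]
        linarith
  have hFsum : ∑ x ∈ S, ∑ y ∈ S, F x y ≤ 48 + 12 * Q + 6 * (1 / c) := by
    have s0 : 0 ≤ ∑ n ∈ S, ψ n := Finset.sum_nonneg (fun n hn => (hS n hn).2.2.1.le)
    have s1 : ∑ x ∈ S, ∑ y ∈ S, (48 + 12 * (Q:ℝ)) * (ψ x * ψ y) ≤ 48 + 12 * Q := by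
      have : ∑ x ∈ S, ∑ y ∈ S, (48 + 12 * (Q:ℝ)) * (ψ x * ψ y) =
          (48 + 12 * (Q:ℝ)) * ((∑ n ∈ S, ψ n) * (∑ n ∈ S, ψ n)) := by
        rw [Finset.sum_mul_sum, Finset.mul_sum]
        apply Finset.sum_congr rfl
        intro x _
        rw [Finset.mul_sum]
      rw [this]
      have h1 : (∑ n ∈ S, ψ n) * (∑ n ∈ S, ψ n) ≤ 1 := by nlinarith
      have h2 : 0 ≤ 48 + 12 * (Q:ℝ) := by positivity
      nlinarith
    have s2 : ∑ x ∈ S, ∑ y ∈ S,
        (if x / x.gcd y = 1 then 6 * (ψ y / ((y / x.gcd y : ℕ) : ℝ)) else 0) ≤ 6 * (1 / c) := by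
      rw [Finset.sum_comm]
      calc ∑ y ∈ S, ∑ x ∈ S,
          (if x / x.gcd y = 1 then 6 * (ψ y / ((y / x.gcd y : ℕ) : ℝ)) else 0)
          ≤ ∑ y ∈ S, 6 * (ψ y * (1 / c)) := by
            apply Finset.sum_le_sum
            intro y hy
            rw [← Finset.sum_filter, ← Finset.mul_sum]
            apply mul_le_mul_of_nonneg_left _ (by norm_num)
            exact sum_dvd_pairs S ψ c hc divsum hS y hy
        _ = 6 * (1 / c) * ∑ y ∈ S, ψ y := by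
            rw [Finset.mul_sum]
            apply Finset.sum_congr rfl
            intro y _
            ring
        _ ≤ 6 * (1 / c) * 1 := by
            apply mul_le_mul_of_nonneg_left hsum (by positivity)
        _ = 6 * (1 / c) := by ring
    calc ∑ x ∈ S, ∑ y ∈ S, F x y = ∑ x ∈ S, ∑ y ∈ S, (48 + 12 * (Q:ℝ)) * (ψ x * ψ y) +
        ∑ x ∈ S, ∑ y ∈ S,
        (if x / x.gcd y = 1 then 6 * (ψ y / ((y / x.gcd y : ℕ) : ℝ)) else 0) := by
          simp only [hF, Finset.sum_add_distrib]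
      _ ≤ _ := by linarith
  calc ∑ x ∈ S, ∑ y ∈ S, ov x y
      ≤ ∑ x ∈ S, ∑ y ∈ S, ((if x = y then 6 * ψ x else 0) + F x y + F y x) := by
        apply Finset.sum_le_sum
        intro x hx
        apply Finset.sum_le_sum
        intro y hy
        exact hpt x hx y hy
    _ = ∑ x ∈ S, 6 * ψ x + ∑ x ∈ S, ∑ y ∈ S, F x y + ∑ x ∈ S, ∑ y ∈ S, F y x := by
        simp only [Finset.sum_add_distrib]
        congr 2
        apply Finset.sum_congr rfl
        intro x hx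
        rw [Finset.sum_ite_eq]
        rw [if_pos hx]
    _ = 6 * ∑ x ∈ S, ψ x + 2 * ∑ x ∈ S, ∑ y ∈ S, F x y := by
        rw [Finset.sum_comm (f := fun x y => F y x), ← Finset.mul_sum]
        ring
    _ ≤ 6 * 1 + 2 * (48 + 12 * Q + 6 * (1 / c)) := by
        have : 6 * ∑ x ∈ S, ψ x ≤ 6 * 1 := by linarith
        linarith
    _ = _ := by ring

/-- all rational shifts, arbitrary `Φ` -/
theorem main_rat (Q : ℕ) (P : ℤ) (hQ : 0 < Q) (hPQ : Int.gcd Q P = 1) (Φ : ℕ → ℝ)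
    (h0 : ∀ n, 0 ≤ Φ n) (hH1 : H1 Φ) (hH2 : H2 Φ) : Concl ((P:ℝ) / Q) Φ := by
  classical
  set δ : ℝ := (P:ℝ) / Q with hδ
  obtain ⟨c, hc, hdiv⟩ := diverge Φ h0 hH1 hH2
  choose S hSmem hSlo hShi using blocks Φ h0 c hdiv
  set ψ : ℕ → ℝ := fun n => min (Φ n) (1/8) with hψ
  have hψ0 : ∀ n, 0 ≤ ψ n := fun n => le_min (h0 n) (by norm_num)
  have hψ8 : ∀ n, ψ n ≤ 1/8 := fun n => min_le_right _ _
  set E : ℕ → Set ℝ := fun n => if n = 0 then ∅ else Bset δ (ψ n) n Q P with hE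
  have hEpos : ∀ n, 0 < n → E n = Bset δ (ψ n) n Q P := by
    intro n hn
    simp only [hE]
    rw [if_neg hn.ne']
  have hEm : ∀ n, MeasurableSet (E n) := by
    intro n
    by_cases hn : n = 0
    · simp [hE, hn]
    · rw [hEpos n (Nat.pos_of_ne_zero hn)]
      exact (single δ (ψ n) n _ _ (Nat.pos_of_ne_zero hn) (hψ0 n)).1
  have hEsub : ∀ n, E n ⊆ Set.Ico 0 1 := by
    intro n
    by_cases hn : n = 0
    · simp [hE, hn]
    · rw [hEpos n (Nat.pos_of_ne_zero hn)]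
      intro β hβ
      exact ⟨hβ.1, hβ.2.1⟩
  have hψS : ∀ t, ∀ n ∈ S t, 0 < ψ n := by
    intro t n hn
    exact lt_min (hSmem t n hn).2.2.2 (by norm_num)
  have hbc := bc S E (6 + 2 * (48 + 12 * Q + 6 * (1 / c))) (c / 2) (by positivity) hEm hEsub
    (by
      intro t
      have := second_rat Q P hQ c hc ψ (S t)
        (fun n hn => ⟨(hSmem t n hn).2.1, (hSmem t n hn).2.2.1, hψS t n hn, hψ8 n⟩)
        (hShi t)
      refine le_trans (le_of_eq ?_) this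
      apply Finset.sum_congr rfl
      intro x hx
      apply Finset.sum_congr rfl
      intro y hy
      rw [hEpos x (hSmem t x hx).2.1, hEpos y (hSmem t y hy).2.1])
    (by
      intro a b ha hab hb
      obtain ⟨n0, hn0⟩ := first_moment c a b hc ha hab hb
      filter_upwards [eventually_ge_atTop n0] with t ht
      calc c / 2 * (b - a) = 1 / 2 * (c * (b - a)) := by ring
        _ ≤ (∑ n ∈ S t, ψ n) * (c * (b - a)) := by
            apply mul_le_mul_of_nonneg_right (hSlo t)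
            have : 0 < b - a := by linarith
            positivity
        _ = ∑ n ∈ S t, c * ψ n * (b - a) := by
            rw [Finset.sum_mul]
            apply Finset.sum_congr rfl
            intro n _
            ring
        _ ≤ ∑ v ∈ S t, (volume (E v ∩ Set.Ioo a b)).toReal := by
            apply Finset.sum_le_sum
            intro n hn
            obtain ⟨m1, m2, m3, m4⟩ := hSmem t n hn
            rw [hEpos n m2]
            exact hn0 n (le_trans ht m1) m3 δ (ψ n) _ _ (hψS t n hn) (hψ8 n) hPQ)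
  apply ae_of_unit
  filter_upwards [hbc] with β hβ
  rw [Set.infinite_iff_exists_gt]
  intro M
  have hβ' := (hβ.and_eventually (eventually_gt_atTop M)).exists
  obtain ⟨t, ⟨v, hv, hβv⟩, htM⟩ := hβ'
  obtain ⟨m1, m2, m3, m4⟩ := hSmem t v hv
  refine ⟨v, ⟨m2, ?_⟩, lt_of_lt_of_le htM m1⟩
  rw [hEpos v m2] at hβv
  obtain ⟨-, -, r, -, hr⟩ := hβv
  calc nd (v * β - δ) ≤ |(v:ℝ) * β - δ - r| := nd_le_abs _ r
    _ < ψ v := hr
    _ ≤ Φ v := min_le_left _ _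

end Pool.Agent.MP_0863b8
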